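import Pool.Agent.Helper63.D4.Sheet

/-!
# Row BF of the sheet D4: rounding by the method of Beck and Fiala
-/

set_option autoImplicit false
set_option linter.unusedSectionVars false

namespace Pool.Agent.Helper78.D4

open Finset Pool.Agent.Helper33.DP Pool.Agent.Helper63.D4

section core

variable {ι K : Type} [Fintype ι] [DecidableEq ι] [Fintype K] [DecidableEq K]

/-- The entries which are not integers. -/
noncomputable def NI (z : ι → ℝ) : Finset ι := univ.filter (fun i => Int.fract (z i) ≠ 0)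

theorem mem_NI {z : ι → ℝ} {i : ι} : i ∈ NI z ↔ Int.fract (z i) ≠ 0 := by
  simp [NI]

theorem int_of_not_mem {z : ι → ℝ} {i : ι} (h : i ∉ NI z) : (⌊z i⌋ : ℝ) = z i := by
  have h1 : Int.fract (z i) = 0 := by
    by_contra h2
    exact h (mem_NI.2 h2)
  have h3 := Int.floor_add_fract (z i)
  rw [h1, add_zero] at h3
  exact h3

/-- Two entries in every class with an integral sum. -/
theorem two_le (h : ι → K) (z : ι → ℝ) (hz : ∀ c, ∃ m : ℤ, ∑ i ∈ univ.filter (h · = c), z i = m)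
    (c : K) (hc : c ∈ (NI z).image h) : 2 ≤ ((NI z).filter (h · = c)).card := by
  obtain ⟨i, hi, hic⟩ := Finset.mem_image.1 hc
  by_contra hlt
  have hi' : i ∈ (NI z).filter (h · = c) := Finset.mem_filter.2 ⟨hi, hic⟩
  have h1 : ((NI z).filter (h · = c)).card = 1 := by
    have := Finset.card_pos.2 ⟨i, hi'⟩
    omega
  obtain ⟨j, hj⟩ := Finset.card_eq_one.1 h1
  rw [hj, Finset.mem_singleton] at hi'
  obtain ⟨m, hm⟩ := hz c
  have h2 : i ∈ univ.filter (h · = c) := by simp [hic]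
  rw [← Finset.add_sum_erase _ _ h2] at hm
  have h3 : ∑ k ∈ (univ.filter (h · = c)).erase i, z k =
      ((∑ k ∈ (univ.filter (h · = c)).erase i, ⌊z k⌋ : ℤ) : ℝ) := by
    rw [Int.cast_sum]
    refine Finset.sum_congr rfl fun k hk => ?_
    obtain ⟨hk1, hk2⟩ := Finset.mem_erase.1 hk
    refine (int_of_not_mem fun hk3 => ?_).symm
    have h4 : k ∈ (NI z).filter (h · = c) :=
      Finset.mem_filter.2 ⟨hk3, (Finset.mem_filter.1 hk2).2⟩
    rw [hj, Finset.mem_singleton] at h4
    exact hk1 (h4.trans hi'.symm)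
  rw [h3] at hm
  have h5 : z i = ((m - ∑ k ∈ (univ.filter (h · = c)).erase i, ⌊z k⌋ : ℤ) : ℝ) := by
    push_cast
    push_cast at hm
    linarith
  apply mem_NI.1 hi
  rw [h5, Int.fract_intCast]

theorem card_active (s : ι → K) (N : Finset ι) :
    5 * (univ.filter (fun c => 5 ≤ (N.filter (s · = c)).card)).card ≤ N.card := by
  have h1 : N.card = ∑ c, (N.filter (s · = c)).card :=
    Finset.card_eq_sum_card_fiberwise fun i _ => Finset.mem_coe.2 (mem_univ _)
  rw [h1, mul_comm, ← smul_eq_mul, ← Finset.sum_const]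
  refine le_trans (Finset.sum_le_sum fun c hc => (Finset.mem_filter.1 hc).2) ?_
  exact Finset.sum_le_sum_of_subset_of_nonneg (Finset.subset_univ _) fun _ _ _ => Nat.zero_le _

theorem card_hard (h : ι → K) (N : Finset ι)
    (h2 : ∀ c ∈ N.image h, 2 ≤ (N.filter (h · = c)).card) : 2 * (N.image h).card ≤ N.card := by
  have h1 : N.card = ∑ c ∈ N.image h, (N.filter (h · = c)).card :=
    Finset.card_eq_sum_card_fiberwise fun i hi => Finset.mem_coe.2 (Finset.mem_image_of_mem _ hi)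
  rw [h1, mul_comm, ← smul_eq_mul, ← Finset.sum_const]
  exact Finset.sum_le_sum h2

/-- A direction in which all active sums are constant. -/
theorem exists_dir (h s₁ s₂ : ι → K) (z : ι → ℝ)
    (hz : ∀ c, ∃ m : ℤ, ∑ i ∈ univ.filter (h · = c), z i = m) (hne : 0 < (NI z).card) :
    ∃ u : ι → ℝ, (∀ i, i ∉ NI z → u i = 0) ∧ (∃ i, u i ≠ 0) ∧
      (∀ c, ∑ i ∈ univ.filter (h · = c), u i = 0) ∧
      (∀ c, 5 ≤ ((NI z).filter (s₁ · = c)).card → ∑ i ∈ univ.filter (s₁ · = c), u i = 0) ∧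
      ∀ c, 5 ≤ ((NI z).filter (s₂ · = c)).card → ∑ i ∈ univ.filter (s₂ · = c), u i = 0 := by
  classical
  set N := NI z with hN
  set HA := N.image h with hHA
  set A₁ := univ.filter (fun c => 5 ≤ (N.filter (s₁ · = c)).card) with hA₁
  set A₂ := univ.filter (fun c => 5 ≤ (N.filter (s₂ · = c)).card) with hA₂
  have c0 : 2 * HA.card ≤ N.card := card_hard h N (two_le h z hz)
  have c1 : 5 * A₁.card ≤ N.card := card_active s₁ N
  have c2 : 5 * A₂.card ≤ N.card := card_active s₂ N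
  -- sums over a class, as linear maps
  let sm : (ι → K) → K → (N → ℝ) →ₗ[ℝ] ℝ := fun s c =>
    ∑ i : N, (if s i = c then (1 : ℝ) else 0) • LinearMap.proj i
  let L : (N → ℝ) →ₗ[ℝ] ((HA → ℝ) × (A₁ → ℝ) × (A₂ → ℝ)) :=
    (LinearMap.pi fun c : HA => sm h c).prod
      ((LinearMap.pi fun c : A₁ => sm s₁ c).prod (LinearMap.pi fun c : A₂ => sm s₂ c))
  have hfr : Module.finrank ℝ ((HA → ℝ) × (A₁ → ℝ) × (A₂ → ℝ)) <
      Module.finrank ℝ (N → ℝ) := by
    rw [Module.finrank_prod, Module.finrank_prod, Module.finrank_fintype_fun_eq_card,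
      Module.finrank_fintype_fun_eq_card, Module.finrank_fintype_fun_eq_card,
      Module.finrank_fintype_fun_eq_card, Fintype.card_coe, Fintype.card_coe, Fintype.card_coe,
      Fintype.card_coe]
    omega
  have hker := LinearMap.ker_ne_bot_of_finrank_lt (f := L) hfr
  obtain ⟨v, hv, hv0⟩ := Submodule.exists_mem_ne_zero_of_ne_bot hker
  rw [LinearMap.mem_ker] at hv
  have hv1 : ∀ c ∈ HA, sm h c v = 0 := fun c hc => by
    have := congrFun (congrArg Prod.fst hv) ⟨c, hc⟩
    exact this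
  have hv2 : ∀ c ∈ A₁, sm s₁ c v = 0 := fun c hc => by
    have := congrFun (congrArg (fun p => p.2.1) hv) ⟨c, hc⟩
    exact this
  have hv3 : ∀ c ∈ A₂, sm s₂ c v = 0 := fun c hc => by
    have := congrFun (congrArg (fun p => p.2.2) hv) ⟨c, hc⟩
    exact this
  let u : ι → ℝ := fun i => if hi : i ∈ N then v ⟨i, hi⟩ else 0
  have hu0 : ∀ i, i ∉ N → u i = 0 := fun i hi => dif_neg hi
  have hsum : ∀ (s : ι → K) (c : K), sm s c v = ∑ i ∈ univ.filter (s · = c), u i := by
    intro s c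
    have e1 : sm s c v = ∑ i : N, (if s i = c then (1 : ℝ) else 0) * v i := by
      simp only [sm, LinearMap.sum_apply, LinearMap.smul_apply, LinearMap.proj_apply, smul_eq_mul]
    have e2 : ∑ i : N, (if s i = c then (1 : ℝ) else 0) * v i =
        ∑ i : N, (if s i = c then u i else 0) := by
      refine Finset.sum_congr rfl fun i _ => ?_
      have : u (i : ι) = v i := dif_pos i.2
      split_ifs
      · rw [one_mul, this]
      · rw [zero_mul]
    rw [e1, e2, Finset.sum_coe_sort N (fun i => if s i = c then u i else 0), Finset.sum_filter]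
    refine Finset.sum_subset (Finset.subset_univ _) fun i _ hi => ?_
    rw [hu0 i hi, ite_self]
  refine ⟨u, hu0, ?_, ?_, ?_, ?_⟩
  · by_contra hcon
    push Not at hcon
    apply hv0
    funext i
    have := hcon i
    have h2 : u (i : ι) = v i := dif_pos i.2
    rw [← h2, this]
    rfl
  · intro c
    by_cases hc : c ∈ HA
    · rw [← hsum, hv1 c hc]
    · refine Finset.sum_eq_zero fun i hi => hu0 i fun hiN => hc ?_
      rw [← (Finset.mem_filter.1 hi).2]
      exact Finset.mem_image_of_mem _ hiN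
  · intro c hc
    rw [← hsum, hv2 c (Finset.mem_filter.2 ⟨mem_univ _, hc⟩)]
  · intro c hc
    rw [← hsum, hv3 c (Finset.mem_filter.2 ⟨mem_univ _, hc⟩)]

/-- The first time at which an entry becomes an integer. -/
theorem exists_step (z u : ι → ℝ) (hu : ∀ i, i ∉ NI z → u i = 0) (hne : ∃ i, u i ≠ 0) :
    ∃ t : ℝ, (∀ i, (⌊z i⌋ : ℝ) ≤ z i + t * u i ∧ z i + t * u i ≤ ⌈z i⌉) ∧
      ∃ i ∈ NI z, i ∉ NI (fun i => z i + t * u i) := by
  classical
  let M : Finset ι := univ.filter (fun i => u i ≠ 0)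
  have hM : M.Nonempty := by
    obtain ⟨i, hi⟩ := hne
    exact ⟨i, Finset.mem_filter.2 ⟨mem_univ _, hi⟩⟩
  let τ : ι → ℝ := fun i => if 0 < u i then ((⌈z i⌉ : ℝ) - z i) / u i else
    (z i - ⌊z i⌋) / (-u i)
  obtain ⟨j, hj, hmin⟩ := Finset.exists_min_image M τ hM
  have hfl : ∀ i, (⌊z i⌋ : ℝ) ≤ z i := fun i => Int.floor_le _
  have hcl : ∀ i, z i ≤ ⌈z i⌉ := fun i => Int.le_ceil _
  have hτ0 : 0 ≤ τ j := by
    show 0 ≤ (if 0 < u j then ((⌈z j⌉ : ℝ) - z j) / u j else (z j - ⌊z j⌋) / (-u j))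
    split_ifs with h
    · exact div_nonneg (sub_nonneg.2 (hcl j)) h.le
    · exact div_nonneg (sub_nonneg.2 (hfl j)) (by linarith)
  refine ⟨τ j, ?_, j, ?_, ?_⟩
  · intro i
    by_cases h0 : u i = 0
    · rw [h0, mul_zero, add_zero]
      exact ⟨hfl i, hcl i⟩
    · have h1 : τ j ≤ τ i := hmin i (Finset.mem_filter.2 ⟨mem_univ _, h0⟩)
      rcases lt_or_gt_of_ne h0 with h2 | h2
      · have h3 : τ i = (z i - ⌊z i⌋) / (-u i) := if_neg (by linarith)
        rw [h3, le_div_iff₀ (by linarith)] at h1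
        have h4 : τ j * u i ≤ 0 := mul_nonpos_of_nonneg_of_nonpos hτ0 h2.le
        have := hcl i
        constructor <;> linarith
      · have h3 : τ i = ((⌈z i⌉ : ℝ) - z i) / u i := if_pos h2
        rw [h3, le_div_iff₀ h2] at h1
        have h4 : 0 ≤ τ j * u i := mul_nonneg hτ0 h2.le
        have := hfl i
        constructor <;> linarith
  · by_contra h
    exact (Finset.mem_filter.1 hj).2 (hu j h)
  · rw [mem_NI, not_not]
    have h0 : u j ≠ 0 := (Finset.mem_filter.1 hj).2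
    rcases lt_or_gt_of_ne h0 with h2 | h2
    · have h3 : τ j = (z j - ⌊z j⌋) / (-u j) := if_neg (by linarith)
      have h4 : z j + τ j * u j = (⌊z j⌋ : ℝ) := by
        rw [h3]
        field_simp
        ring
      rw [h4, Int.fract_intCast]
    · have h3 : τ j = ((⌈z j⌉ : ℝ) - z j) / u j := if_pos h2
      have h4 : z j + τ j * u j = (⌈z j⌉ : ℝ) := by
        rw [h3]
        field_simp
        ring
      rw [h4, Int.fract_intCast]

/-- A class with few entries that are not integers. -/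
theorem small_class (s : ι → K) (z : ι → ℝ) (z' : ι → ℤ)
    (hz' : ∀ i, ⌊z i⌋ ≤ z' i ∧ z' i ≤ ⌈z i⌉) (c : K)
    (hc : ¬ 5 ≤ ((NI z).filter (s · = c)).card) :
    |∑ i ∈ univ.filter (s · = c), ((z' i : ℝ) - z i)| ≤ 4 := by
  have h1 : ∑ i ∈ univ.filter (s · = c), ((z' i : ℝ) - z i) =
      ∑ i ∈ (NI z).filter (s · = c), ((z' i : ℝ) - z i) := by
    symm
    refine Finset.sum_subset ?_ fun i hi hi' => ?_
    · intro i hi
      exact Finset.mem_filter.2 ⟨mem_univ _, (Finset.mem_filter.1 hi).2⟩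
    · have h2 : i ∉ NI z := fun h3 =>
        hi' (Finset.mem_filter.2 ⟨h3, (Finset.mem_filter.1 hi).2⟩)
      have h3 := int_of_not_mem h2
      have h4 : ⌈z i⌉ = ⌊z i⌋ := by
        conv_lhs => rw [← h3]
        rw [Int.ceil_intCast]
      have h5 : z' i = ⌊z i⌋ := le_antisymm (by rw [← h4]; exact (hz' i).2) (hz' i).1
      rw [h5, h3, sub_self]
  rw [h1]
  refine (Finset.abs_sum_le_sum_abs _ _).trans ?_
  have h2 : ∀ i ∈ (NI z).filter (s · = c), |(z' i : ℝ) - z i| ≤ 1 := by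
    intro i _
    have h3 : ((⌊z i⌋ : ℤ) : ℝ) ≤ z' i := by exact_mod_cast (hz' i).1
    have h4 : (z' i : ℝ) ≤ ⌈z i⌉ := by exact_mod_cast (hz' i).2
    have h5 := Int.lt_floor_add_one (z i)
    have h6 := Int.ceil_lt_add_one (z i)
    rw [abs_le]
    constructor <;> linarith
  refine (Finset.sum_le_sum h2).trans ?_
  rw [Finset.sum_const, nsmul_eq_mul, mul_one]
  have : ((NI z).filter (s · = c)).card ≤ 4 := by omega
  exact_mod_cast this

theorem core (h s₁ s₂ : ι → K) : ∀ (F : ℕ) (z : ι → ℝ), (NI z).card = F →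
    (∀ c, ∃ m : ℤ, ∑ i ∈ univ.filter (h · = c), z i = m) →
    ∃ z' : ι → ℤ, (∀ i, ⌊z i⌋ ≤ z' i ∧ z' i ≤ ⌈z i⌉) ∧
      (∀ c, ∑ i ∈ univ.filter (h · = c), (z' i : ℝ) = ∑ i ∈ univ.filter (h · = c), z i) ∧
      (∀ c, |∑ i ∈ univ.filter (s₁ · = c), ((z' i : ℝ) - z i)| ≤ 4) ∧
      ∀ c, |∑ i ∈ univ.filter (s₂ · = c), ((z' i : ℝ) - z i)| ≤ 4 := by
  classical
  intro F
  induction F using Nat.strong_induction_on with
  | _ F ih =>
    intro z hF hz
    rcases Nat.eq_zero_or_pos F with h0 | h0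
    · subst h0
      rw [Finset.card_eq_zero] at hF
      have h1 : ∀ i, (⌊z i⌋ : ℝ) = z i := fun i => int_of_not_mem (by rw [hF]; simp)
      refine ⟨fun i => ⌊z i⌋, fun i => ⟨le_rfl, Int.floor_le_ceil _⟩, fun c => ?_, ?_, ?_⟩
      · exact Finset.sum_congr rfl fun i _ => h1 i
      · intro c
        rw [Finset.sum_eq_zero fun i _ => by rw [h1, sub_self]]
        norm_num
      · intro c
        rw [Finset.sum_eq_zero fun i _ => by rw [h1, sub_self]]
        norm_num
    · obtain ⟨u, hu1, hu2, hu3, hu4, hu5⟩ := exists_dir h s₁ s₂ z hz (by omega)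
      obtain ⟨t, ht1, j, hj1, hj2⟩ := exists_step z u hu1 hu2
      set z₁ : ι → ℝ := fun i => z i + t * u i with hz₁
      have hsub : NI z₁ ⊆ (NI z).erase j := by
        intro i hi
        rw [Finset.mem_erase]
        refine ⟨fun hij => hj2 (by rw [← hij]; exact hi), ?_⟩
        by_contra h2
        have h3 : z₁ i = z i := by
          simp only [hz₁]
          rw [hu1 i h2, mul_zero, add_zero]
        rw [mem_NI, h3] at hi
        exact h2 (mem_NI.2 hi)
      have hcard : (NI z₁).card < F := by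
        have h2 := Finset.card_le_card hsub
        have h3 := Finset.card_erase_of_mem hj1
        omega
      have hs : ∀ (s : ι → K) (c : K), ∑ i ∈ univ.filter (s · = c), z₁ i =
          ∑ i ∈ univ.filter (s · = c), z i + t * ∑ i ∈ univ.filter (s · = c), u i := by
        intro s c
        rw [Finset.mul_sum, ← Finset.sum_add_distrib]
      have hh : ∀ c, ∑ i ∈ univ.filter (h · = c), z₁ i = ∑ i ∈ univ.filter (h · = c), z i := by
        intro c
        rw [hs, hu3, mul_zero, add_zero]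
      obtain ⟨z', hz1, hz2, hz3, hz4⟩ := ih _ hcard z₁ rfl (fun c => by rw [hh]; exact hz c)
      have hfc : ∀ i, ⌊z i⌋ ≤ z' i ∧ z' i ≤ ⌈z i⌉ := by
        intro i
        have h2 : ⌊z i⌋ ≤ ⌊z₁ i⌋ := Int.le_floor.2 (ht1 i).1
        have h3 : ⌈z₁ i⌉ ≤ ⌈z i⌉ := Int.ceil_le.2 (ht1 i).2
        exact ⟨h2.trans (hz1 i).1, (hz1 i).2.trans h3⟩
      have hact : ∀ (s : ι → K) (c : K), ∑ i ∈ univ.filter (s · = c), u i = 0 →
          ∑ i ∈ univ.filter (s · = c), ((z' i : ℝ) - z i) =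
          ∑ i ∈ univ.filter (s · = c), ((z' i : ℝ) - z₁ i) := by
        intro s c h2
        rw [Finset.sum_sub_distrib, Finset.sum_sub_distrib, hs, h2, mul_zero, add_zero]
      refine ⟨z', hfc, fun c => by rw [hz2, hh], ?_, ?_⟩
      · intro c
        by_cases h2 : 5 ≤ ((NI z).filter (s₁ · = c)).card
        · rw [hact s₁ c (hu4 c h2)]
          exact hz3 c
        · exact small_class s₁ z z' hfc c h2
      · intro c
        by_cases h2 : 5 ≤ ((NI z).filter (s₂ · = c)).card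
        · rw [hact s₂ c (hu5 c h2)]
          exact hz4 c
        · exact small_class s₂ z z' hfc c h2

end core

theorem sum_ab {w : ℕ} (f : Fin w × Fin w × Fin w → ℝ) (a b : Fin w) :
    ∑ i ∈ univ.filter (fun i : Fin w × Fin w × Fin w => (i.1, i.2.2) = (a, b)), f i =
      ∑ x, f (a, x, b) := by
  refine Finset.sum_nbij' (fun i => i.2.1) (fun x => (a, x, b)) ?_ ?_ ?_ ?_ ?_
  · intro i _; exact mem_univ _
  · intro x _; simp
  · rintro ⟨i, j, k⟩ hi
    simp only [mem_filter, mem_univ, true_and, Prod.mk.injEq] at hi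
    simp [hi.1, hi.2]
  · intro x _; rfl
  · rintro ⟨i, j, k⟩ hi
    simp only [mem_filter, mem_univ, true_and, Prod.mk.injEq] at hi
    simp [hi.1, hi.2]

theorem sum_ax {w : ℕ} (f : Fin w × Fin w × Fin w → ℝ) (a x : Fin w) :
    ∑ i ∈ univ.filter (fun i : Fin w × Fin w × Fin w => (i.1, i.2.1) = (a, x)), f i =
      ∑ b, f (a, x, b) := by
  refine Finset.sum_nbij' (fun i => i.2.2) (fun b => (a, x, b)) ?_ ?_ ?_ ?_ ?_
  · intro i _; exact mem_univ _
  · intro x _; simp
  · rintro ⟨i, j, k⟩ hi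
    simp only [mem_filter, mem_univ, true_and, Prod.mk.injEq] at hi
    simp [hi.1, hi.2]
  · intro x _; rfl
  · rintro ⟨i, j, k⟩ hi
    simp only [mem_filter, mem_univ, true_and, Prod.mk.injEq] at hi
    simp [hi.1, hi.2]

theorem sum_xb {w : ℕ} (f : Fin w × Fin w × Fin w → ℝ) (x b : Fin w) :
    ∑ i ∈ univ.filter (fun i : Fin w × Fin w × Fin w => (i.2.1, i.2.2) = (x, b)), f i =
      ∑ a, f (a, x, b) := by
  refine Finset.sum_nbij' (fun i => i.1) (fun a => (a, x, b)) ?_ ?_ ?_ ?_ ?_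
  · intro i _; exact mem_univ _
  · intro x _; simp
  · rintro ⟨i, j, k⟩ hi
    simp only [mem_filter, mem_univ, true_and, Prod.mk.injEq] at hi
    simp [hi.1, hi.2]
  · intro x _; rfl
  · rintro ⟨i, j, k⟩ hi
    simp only [mem_filter, mem_univ, true_and, Prod.mk.injEq] at hi
    simp [hi.1, hi.2]

theorem BF : ST_BF := by
  classical
  intro w z n hz hn
  let Z : Fin w × Fin w × Fin w → ℝ := fun i => z i.1 i.2.1 i.2.2
  obtain ⟨z', h1, h2, h3, h4⟩ := core (fun i : Fin w × Fin w × Fin w => (i.1, i.2.2))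
    (fun i => (i.1, i.2.1)) (fun i => (i.2.1, i.2.2)) _ Z rfl (by
      rintro ⟨a, b⟩
      refine ⟨(n a b : ℤ), ?_⟩
      rw [sum_ab Z a b]
      have := hn a b
      push_cast
      exact this)
  have hpos : ∀ i, 0 ≤ z' i := fun i =>
    le_trans (Int.floor_nonneg.2 (hz i.1 i.2.1 i.2.2)) (h1 i).1
  have hcast : ∀ i, (((z' i).toNat : ℕ) : ℝ) = (z' i : ℝ) := by
    intro i
    have := Int.toNat_of_nonneg (hpos i)
    exact_mod_cast this
  refine ⟨fun a x b => (z' (a, x, b)).toNat, ?_, ?_, ?_, ?_⟩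
  · intro a b
    have h5 := h2 (a, b)
    rw [sum_ab (fun i => (z' i : ℝ)) a b, sum_ab Z a b] at h5
    have h6 : (∑ x, (((z' (a, x, b)).toNat : ℕ) : ℝ)) = n a b := by
      rw [Finset.sum_congr rfl fun x _ => hcast (a, x, b), h5]
      exact hn a b
    exact_mod_cast h6
  · intro a x b h0
    have h5 := h1 (a, x, b)
    have h6 : Z (a, x, b) = 0 := h0
    rw [h6, Int.floor_zero, Int.ceil_zero] at h5
    have h7 : z' (a, x, b) = 0 := le_antisymm h5.2 h5.1
    show (z' (a, x, b)).toNat = 0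
    rw [h7]
    rfl
  · intro a x
    have h5 := h3 (a, x)
    rw [sum_ax (fun i => (z' i : ℝ) - Z i) a x, Finset.sum_sub_distrib] at h5
    rw [Finset.sum_congr rfl fun b _ => hcast (a, x, b)]
    exact h5
  · intro x b
    have h5 := h4 (x, b)
    rw [sum_xb (fun i => (z' i : ℝ) - Z i) x b, Finset.sum_sub_distrib] at h5
    rw [Finset.sum_congr rfl fun a _ => hcast (a, x, b)]
    exact h5

end Pool.Agent.Helper78.D4
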