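import Pool.Agent.Helper63.D4.Sheet
import Pool.Agent.Helper78.PL.CLM

/-!
# Row BL of the sheet D4: the blocks
-/

set_option autoImplicit false

namespace Pool.Agent.Helper78.D4

open Finset Pool.Agent.Helper33.DP Pool.Agent.Helper63.D4

theorem BL (h1 : ST_DS1) : ST_BL := by
  classical
  intro w G G₁ G₂ hG₁ hG₂ hc hst
  obtain ⟨σ, hσ⟩ := hG₁.ex
  obtain ⟨τ, hτ⟩ := hG₂.ex
  set N1 : Fin w → Finset (Fin w) := fun x => univ.filter (fun a => (a, x) ∈ G₁) with hN1
  set N : Fin w → Finset (Fin w) := fun b => univ.filter (fun a => (a, b) ∈ G) with hN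
  have hNN : ∀ x b, (x, b) ∈ G₂ → N1 x = N b := by
    intro x b hxb
    ext a
    simp only [hN1, hN, mem_filter, mem_univ, true_and]
    constructor
    · intro ha
      rw [← hc]
      simp only [comp, mem_filter, mem_univ, true_and]
      exact ⟨x, ha, hxb⟩
    · intro ha
      exact hst a x b ha hxb
  set T : Fin w → Finset (Fin w) := fun b => univ.filter (fun x => N1 x = N b) with hT
  have hTpos : ∀ b, 0 < (T b).card := by
    intro b
    apply Finset.card_pos.2
    refine ⟨τ.symm b, ?_⟩
    simp only [hT, mem_filter, mem_univ, true_and]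
    apply hNN
    have := hτ (τ.symm b)
    rwa [Equiv.apply_symm_apply] at this
  have hcard1 : ∀ S : Finset (Fin w), (univ.filter (fun b => N b = S)).card =
      (univ.filter (fun x => N1 x = S)).card := by
    intro S
    symm
    apply Finset.card_bij (fun x _ => τ x)
    · intro x hx
      simp only [mem_filter, mem_univ, true_and] at hx ⊢
      rw [← hNN x (τ x) (hτ x)]; exact hx
    · intro x _ y _ hxy
      exact τ.injective hxy
    · intro b hb
      simp only [mem_filter, mem_univ, true_and] at hb
      refine ⟨τ.symm b, ?_, by simp⟩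
      simp only [mem_filter, mem_univ, true_and]
      rw [hNN (τ.symm b) b (by have := hτ (τ.symm b); rwa [Equiv.apply_symm_apply] at this)]
      exact hb
  have hcard2 : ∀ S : Finset (Fin w), (univ.filter (fun a => N1 (σ a) = S)).card =
      (univ.filter (fun x => N1 x = S)).card := by
    intro S
    apply Finset.card_bij (fun a _ => σ a)
    · intro a ha
      simp only [mem_filter, mem_univ, true_and] at ha ⊢
      exact ha
    · intro x _ y _ hxy
      exact σ.injective hxy
    · intro x hx
      simp only [mem_filter, mem_univ, true_and] at hx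
      refine ⟨σ.symm x, ?_, by simp⟩
      simp only [mem_filter, mem_univ, true_and, Equiv.apply_symm_apply]
      exact hx
  set E : Fin w → Finset (Fin w) := fun b => univ.filter (fun a => N1 (σ a) = N b) with hE
  have hEmem : ∀ a b, a ∈ E b → (a, b) ∈ G := by
    intro a b ha
    have h5 : N1 (σ a) = N b := (mem_filter.1 ha).2
    have h6 : a ∈ N1 (σ a) := by
      simp only [hN1, mem_filter, mem_univ, true_and]
      exact hσ a
    rw [h5] at h6
    simpa only [hN, mem_filter, mem_univ, true_and] using h6
  have hET : ∀ b, (E b).card = (T b).card := fun b => hcard2 (N b)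
  set D : Fin w → Fin w → ℝ := fun a b => if N1 (σ a) = N b then ((T b).card : ℝ)⁻¹ else 0
    with hD
  have hDS : DS G D := by
    refine ⟨?_, ?_, ?_, ?_⟩
    · intro a b
      simp only [hD]
      split_ifs
      · positivity
      · exact le_refl _
    · intro a
      have h2 : ∀ b, D a b = if N b = N1 (σ a) then
          (((univ.filter (fun x => N1 x = N1 (σ a))).card : ℕ) : ℝ)⁻¹ else 0 := by
        intro b
        simp only [hD]
        by_cases h : N1 (σ a) = N b
        · rw [if_pos h, if_pos h.symm]
          simp only [hT]
          rw [h]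
        · rw [if_neg h, if_neg (fun h' => h h'.symm)]
      rw [Finset.sum_congr rfl (fun b _ => h2 b), ← Finset.sum_filter, Finset.sum_const,
        nsmul_eq_mul, hcard1]
      apply mul_inv_cancel₀
      have : 0 < (univ.filter (fun x => N1 x = N1 (σ a))).card :=
        Finset.card_pos.2 ⟨σ a, by simp⟩
      exact_mod_cast this.ne'
    · intro b
      simp only [hD]
      rw [← Finset.sum_filter, Finset.sum_const, nsmul_eq_mul, hcard2]
      apply mul_inv_cancel₀
      have := hTpos b
      simp only [hT] at this
      exact_mod_cast this.ne'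
    · intro a b hab
      simp only [hD]
      rw [if_neg]
      intro h
      exact hab (hEmem a b (by simp only [hE, mem_filter, mem_univ, true_and]; exact h))
  refine ⟨T, E, ⟨?_, hET, fun b => hTpos b, ?_, hEmem, ?_⟩, ?_⟩
  · intro x b hxb
    simp only [hT, mem_filter, mem_univ, true_and]
    exact hNN x b hxb
  · intro x b b' hb hb'
    simp only [hE]
    rw [← hNN x b hb, ← hNN x b' hb']
  · intro a x b hab hx
    have h5 : N1 x = N b := (mem_filter.1 hx).2
    have h6 : a ∈ N b := by
      simp only [hN, mem_filter, mem_univ, true_and]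
      exact hab
    rw [← h5] at h6
    simpa only [hN1, mem_filter, mem_univ, true_and] using h6
  · intro m β hB
    have h2 := h1 w G m D β hB hDS
    refine le_trans ?_ h2
    rw [Finset.sum_comm]
    refine Finset.sum_le_sum (fun b _ => ?_)
    have hne : (E b).Nonempty := by
      rw [← Finset.card_pos, hET]; exact hTpos b
    have h8 := Pool.Agent.Helper78.PL.hm_am (E b) (fun a => m a b)
      (fun a ha => hB.pos a b (hEmem a b ha)) _ le_rfl hne
    have h9 : ∑ a, D a b * (m a b)⁻¹ = ((E b).card : ℝ)⁻¹ * ∑ a ∈ E b, (m a b)⁻¹ := by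
      rw [Finset.mul_sum]
      simp only [hE]
      rw [Finset.sum_filter]
      refine Finset.sum_congr rfl (fun a _ => ?_)
      simp only [hD]
      split_ifs
      · rw [hcard2 (N b)]
      · rw [zero_mul]
    rw [h9, ← hET b, div_eq_mul_inv]
    exact h8

end Pool.Agent.Helper78.D4
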