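import Pool.Agent.Helper63.D4.Sheet
import Pool.Agent.Helper78.PL.GT

/-!
# Row BT4 of the sheet D4: case B transposed
-/

set_option autoImplicit false

namespace Pool.Agent.Helper78.D4

open Finset Pool.Agent.Helper33.DP Pool.Agent.Helper63.D4 Pool.Agent.Helper78.PL

variable {w : ℕ}

theorem good4_tr {G : Gr w} {μ : Fin w → Fin w → ℕ} (h : Good4 G μ) :
    Good4 (tr G) (fun a b => μ b a) := by
  obtain ⟨h1, R, C, hR, hC, h2⟩ := h
  refine ⟨fun a b hab => h1 b a (fun h' => hab (mem_tr.2 h')), fun a b => C b a,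
    fun a b => R b a, fun a => hC a, fun b => hR b, ?_⟩
  rw [card_tr]
  have h3 := bdd_tr h2
  have h4 : (fun a b : Fin w => ((μ b a : ℕ) : ℝ) + C b a + R b a) =
      fun a b => (μ b a : ℝ) + R b a + C b a := by
    funext a b
    ring
  rw [h4]
  exact h3

theorem stepC4_tr {G₁ G₂ : Gr w} {μ : Fin w → Fin w → ℕ}
    (h : StepC4 (tr G₂) (tr G₁) (fun a b => μ b a)) : StepC4 G₁ G₂ μ := by
  obtain ⟨z, h1, h2, h3⟩ := h
  refine ⟨fun a x b => z b x a, route_tr h1, ?_, ?_⟩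
  · have h4 := good4_tr h3
    rw [tr_tr] at h4
    exact h4
  · have h4 := good4_tr h2
    rw [tr_tr] at h4
    exact h4

theorem BT4 (hB : ST_B4) : ST_BT4 := by
  intro w G G₁ G₂ μ hw hG hG₁ hG₂ hc hμ h1 h2
  apply stepC4_tr
  refine hB w (tr G) (tr G₂) (tr G₁) _ hw (isCore_tr hG) (isCore_tr hG₂) (isCore_tr hG₁) ?_
    (good4_tr hμ) ?_ ?_
  · rw [comp_tr]; exact tr_mono hc
  · rw [card_tr, card_tr]; exact h2
  · rw [card_tr, card_tr]; exact h1

end Pool.Agent.Helper78.D4
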